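import Mathlib

set_option autoImplicit false

namespace Pool.Agent.Results.MP_818aa8_nt.FinitelyManyZeros

open Complex Filter Topology Set

/-- `M₁(T; θ, σ)`: supremum, in the extended reals, of `Re (e^{-iθ} ζ'/ζ (σ + i t))` over
the `t ∈ [T, 2T]` with `ζ (σ + i t) ≠ 0`. -/
noncomputable def M₁ (T θ σ : ℝ) : EReal :=
  ⨆ t ∈ {t : ℝ | t ∈ Icc T (2 * T) ∧ riemannZeta (σ + t * I) ≠ 0},
    (((exp (-(θ * I)) * (deriv riemannZeta (σ + t * I) / riemannZeta (σ + t * I))).re : ℝ) : EReal)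

/-- `M₂(T; σ)`: supremum of `|ζ'(σ + i t)|` divided by supremum of `|ζ(σ + i t)|`, both over
`t ∈ [T, 2T]`. -/
noncomputable def M₂ (T σ : ℝ) : ℝ :=
  sSup ((fun t : ℝ => ‖deriv riemannZeta (σ + t * I)‖) '' Icc T (2 * T)) /
    sSup ((fun t : ℝ => ‖riemannZeta (σ + t * I)‖) '' Icc T (2 * T))

lemma blowup (ρ : ℂ) (hρ : riemannZeta ρ = 0) (hρ1 : ρ ≠ 1) (u : ℂ) (hu : u ≠ 0) :
    (∀ᶠ r : ℝ in 𝓝[>] 0, riemannZeta (ρ + r * u) ≠ 0) ∧
    Tendsto (fun r : ℝ => (u * (deriv riemannZeta (ρ + r * u) / riemannZeta (ρ + r * u))).re)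
      (𝓝[>] 0) atTop := by
  have han : AnalyticAt ℂ riemannZeta ρ := analyticOn_riemannZeta ρ hρ1
  have hnz : ¬ ∀ᶠ z in 𝓝 ρ, riemannZeta z = 0 := by
    intro h
    have hfin := (isCompact_closedBall ρ 1).inter_riemannZetaZeros_finite
    obtain ⟨s, hs, hball⟩ := Metric.eventually_nhds_iff_ball.mp h
    have hinf : (Metric.ball ρ (min s 1)).Infinite := by
      apply infinite_of_mem_nhds ρ
      exact Metric.ball_mem_nhds ρ (lt_min hs one_pos)
    apply hinf
    apply hfin.subset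
    intro z hz
    refine ⟨?_, ?_⟩
    · exact Metric.ball_subset_closedBall (Metric.ball_subset_ball (min_le_right _ _) hz)
    · rw [mem_riemannZetaZeros]
      exact hball z (Metric.ball_subset_ball (min_le_left _ _) hz)
  obtain ⟨m, g, hg, hgρ, hfg⟩ := han.exists_eventuallyEq_pow_smul_nonzero_iff.mpr hnz
  have hm : m ≠ 0 := by
    intro h0
    have := hfg.self_of_nhds
    rw [h0, pow_zero, one_smul, hρ] at this
    exact hgρ this.symm
  -- the curve
  have hcurve : Tendsto (fun r : ℝ => ρ + r * u) (𝓝[>] 0) (𝓝 ρ) := by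
    have hc : Continuous (fun r : ℝ => ρ + r * u) := by fun_prop
    have := hc.tendsto 0
    simp only [ofReal_zero, zero_mul, add_zero] at this
    exact this.mono_left nhdsWithin_le_nhds
  have hgne : ∀ᶠ z in 𝓝 ρ, g z ≠ 0 := hg.continuousAt.eventually_ne hgρ
  have hgan : ∀ᶠ z in 𝓝 ρ, AnalyticAt ℂ g z := hg.eventually_analyticAt
  have hfg' : ∀ᶠ z in 𝓝 ρ, riemannZeta =ᶠ[𝓝 z] fun w => (w - ρ) ^ m • g w :=
    hfg.eventually_nhds
  have hform : ∀ᶠ z in 𝓝 ρ, z ≠ ρ → riemannZeta z ≠ 0 ∧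
      deriv riemannZeta z / riemannZeta z = m / (z - ρ) + deriv g z / g z := by
    filter_upwards [hgne, hgan, hfg'] with z h1 h2 h3 hz
    have hzρ : z - ρ ≠ 0 := sub_ne_zero.mpr hz
    have hval : riemannZeta z = (z - ρ) ^ m * g z := by
      have := h3.self_of_nhds
      simpa [smul_eq_mul] using this
    refine ⟨?_, ?_⟩
    · rw [hval]; exact mul_ne_zero (pow_ne_zero _ hzρ) h1
    · have hd : deriv riemannZeta z = deriv (fun w => (w - ρ) ^ m * g w) z := by
        have := h3.deriv_eq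
        simpa [smul_eq_mul] using this
      have hder : HasDerivAt (fun w => (w - ρ) ^ m * g w)
          ((m : ℂ) * (z - ρ) ^ (m - 1) * 1 * g z + (z - ρ) ^ m * deriv g z) z := by
        have h4 : HasDerivAt (fun w : ℂ => (w - ρ) ^ m) ((m : ℂ) * (z - ρ) ^ (m - 1) * 1) z :=
          ((hasDerivAt_id z).sub_const ρ).pow m
        exact h4.mul h2.differentiableAt.hasDerivAt
      rw [hd, hder.deriv, hval]
      obtain ⟨k, rfl⟩ : ∃ k, m = k + 1 := ⟨m - 1, by omega⟩
      have : k + 1 - 1 = k := by omega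
      rw [this]
      field_simp
      ring
  have hev := hcurve.eventually hform
  have hrpos : ∀ᶠ r : ℝ in 𝓝[>] 0, 0 < r := self_mem_nhdsWithin
  have hne : ∀ r : ℝ, 0 < r → ρ + r * u ≠ ρ := by
    intro r hr h
    have : (r : ℂ) * u = 0 := by simpa using h
    rcases mul_eq_zero.mp this with h' | h'
    · exact hr.ne' (by exact_mod_cast h')
    · exact hu h'
  refine ⟨?_, ?_⟩
  · filter_upwards [hev, hrpos] with r h1 h2
    exact (h1 (hne r h2)).1
  · have hlim : Tendsto (fun r : ℝ => (u * (deriv g (ρ + r * u) / g (ρ + r * u))).re)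
        (𝓝[>] 0) (𝓝 (u * (deriv g ρ / g ρ)).re) := by
      have hc : ContinuousAt (fun z => (u * (deriv g z / g z)).re) ρ := by
        apply continuous_re.continuousAt.comp
        exact continuousAt_const.mul (hg.deriv.continuousAt.div hg.continuousAt hgρ)
      exact hc.tendsto.comp hcurve
    have hinv : Tendsto (fun r : ℝ => (m : ℝ) * r⁻¹) (𝓝[>] 0) atTop := by
      apply Tendsto.const_mul_atTop
      · exact_mod_cast Nat.pos_of_ne_zero hm
      · exact tendsto_inv_nhdsGT_zero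
    have hsum := hinv.atTop_add hlim
    apply hsum.congr'
    filter_upwards [hev, hrpos] with r h1 h2
    rw [(h1 (hne r h2)).2]
    have hr : (r : ℂ) ≠ 0 := by exact_mod_cast h2.ne'
    have e1 : ρ + r * u - ρ = r * u := by ring
    rw [e1, mul_add, add_re]
    congr 1
    have e2 : u * ((m : ℂ) / (r * u)) = ((m * r⁻¹ : ℝ) : ℂ) := by
      push_cast
      field_simp
    rw [e2, ofReal_re]

lemma mem_rect {T β η σ t : ℝ} (hσ : |σ - β| ≤ η) (ht : t ∈ Icc T (2 * T)) :
    ((σ : ℂ) + t * I) ∈ (Icc (β - η) (β + η) ×ℂ Icc T (2 * T)) := by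
  rw [mem_reProdIm]
  rw [abs_le] at hσ
  simp only [add_re, ofReal_re, mul_re, I_re, mul_zero, ofReal_im, I_im, mul_one, sub_self,
    add_zero, add_im, mul_im, zero_add]
  exact ⟨⟨by linarith, by linarith⟩, ht⟩

lemma M₂_bdd (T β : ℝ) (hT : 0 < T) : ∃ B : ℝ, ∀ᶠ σ in 𝓝 β, M₂ T σ ≤ B := by
  have hT2 : T ≤ 2 * T := by linarith
  have hK : IsCompact (Icc (β - 1) (β + 1) ×ℂ Icc T (2 * T)) :=
    isCompact_Icc.reProdIm isCompact_Icc
  have hK1 : ∀ z ∈ (Icc (β - 1) (β + 1) ×ℂ Icc T (2 * T)), z ≠ 1 := by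
    intro z hz h1
    rw [mem_reProdIm] at hz
    rw [h1] at hz
    have := hz.2.1
    simp at this
    linarith
  have hcont : ContinuousOn riemannZeta (Icc (β - 1) (β + 1) ×ℂ Icc T (2 * T)) := fun z hz =>
    (differentiableAt_riemannZeta (hK1 z hz)).continuousAt.continuousWithinAt
  have hcont' : ContinuousOn (deriv riemannZeta) (Icc (β - 1) (β + 1) ×ℂ Icc T (2 * T)) :=
    fun z hz => (analyticOn_riemannZeta z (hK1 z hz)).deriv.continuousAt.continuousWithinAt
  obtain ⟨B0, hB0⟩ := hK.exists_bound_of_continuousOn hcont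
  obtain ⟨B1, hB1⟩ := hK.exists_bound_of_continuousOn hcont'
  -- a point of the segment where zeta does not vanish
  have hex : ∃ t ∈ Icc T (2 * T), riemannZeta (β + t * I) ≠ 0 := by
    by_contra hcon
    push Not at hcon
    have hS : IsCompact ((fun t : ℝ => (β : ℂ) + t * I) '' Icc T (2 * T)) :=
      isCompact_Icc.image (by fun_prop)
    have hfin := hS.inter_riemannZetaZeros_finite
    have hsub : ((fun t : ℝ => (β : ℂ) + t * I) '' Icc T (2 * T)) ⊆
        ((fun t : ℝ => (β : ℂ) + t * I) '' Icc T (2 * T)) ∩ riemannZetaZeros := by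
      rintro z ⟨t, ht, rfl⟩
      exact ⟨⟨t, ht, rfl⟩, hcon t ht⟩
    have hfin2 := hfin.subset hsub
    have hinj : Set.InjOn (fun t : ℝ => (β : ℂ) + t * I) (Icc T (2 * T)) := by
      intro x _ y _ hxy
      have : (x : ℂ) * I = y * I := by simpa using hxy
      have := mul_right_cancel₀ I_ne_zero this
      exact_mod_cast this
    have := hfin2.of_finite_image hinj
    exact (Icc_infinite (by linarith : T < 2 * T)) this
  obtain ⟨t0, ht0, hz0⟩ := hex
  set c := ‖riemannZeta (β + t0 * I)‖ / 2 with hc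
  have hcpos : 0 < c := by
    have := norm_pos_iff.mpr hz0
    positivity
  have hev1 : ∀ᶠ σ : ℝ in 𝓝 β, c < ‖riemannZeta (σ + t0 * I)‖ := by
    have hne1 : (β : ℂ) + t0 * I ≠ 1 := by
      apply hK1
      exact mem_rect (by simp) ht0
    have hca : ContinuousAt (fun σ : ℝ => ‖riemannZeta ((σ : ℂ) + t0 * I)‖) β := by
      apply ContinuousAt.norm
      apply ContinuousAt.comp (f := fun σ : ℝ => (σ : ℂ) + t0 * I) (g := riemannZeta)
      · exact (differentiableAt_riemannZeta hne1).continuousAt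
      · fun_prop
    have hlt : c < ‖riemannZeta (β + t0 * I)‖ := by
      have := norm_pos_iff.mpr hz0
      rw [hc]; linarith
    exact hca.eventually (lt_mem_nhds hlt)
  have hev2 : ∀ᶠ σ : ℝ in 𝓝 β, |σ - β| < 1 := by
    have := Metric.ball_mem_nhds β one_pos
    filter_upwards [this] with σ hσ
    simpa [Real.dist_eq] using hσ
  refine ⟨B1 / c, ?_⟩
  filter_upwards [hev1, hev2] with σ h1 h2
  unfold M₂
  have hnum : sSup ((fun t : ℝ => ‖deriv riemannZeta (σ + t * I)‖) '' Icc T (2 * T)) ≤ B1 := by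
    apply csSup_le
    · exact ⟨_, ⟨T, ⟨le_refl _, hT2⟩, rfl⟩⟩
    · rintro x ⟨t, ht, rfl⟩
      exact hB1 _ (mem_rect h2.le ht)
  have hden : c ≤ sSup ((fun t : ℝ => ‖riemannZeta (σ + t * I)‖) '' Icc T (2 * T)) := by
    apply h1.le.trans
    apply le_csSup
    · refine ⟨B0, ?_⟩
      rintro x ⟨t, ht, rfl⟩
      exact hB0 _ (mem_rect h2.le ht)
    · exact ⟨t0, ht0, rfl⟩
  have hB1nn : 0 ≤ B1 := by
    refine le_trans (norm_nonneg _) (hB1 (β + t0 * I) (mem_rect (by simp) ht0))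
  calc _ ≤ B1 / sSup ((fun t : ℝ => ‖riemannZeta (σ + t * I)‖) '' Icc T (2 * T)) := by
        gcongr
        exact hcpos.le.trans hden
    _ ≤ B1 / c := by
        apply div_le_div_of_nonneg_left hB1nn hcpos hden

/-- Let `ε ∈ (0, 1/2)`. Suppose that for some direction `θ`, some constant `C` and all large `T`,
uniformly for `σ ∈ [1/2 + ε, 1]`, one has `M₁(T; θ, σ) ≤ C * M₂(T; σ)`. Then `ζ` has only finitely
many zeros with real part greater than `1/2 + ε`. -/
theorem result (ε θ C T₀ : ℝ) (hε : 0 < ε) (hε' : ε < 1 / 2)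
    (h : ∀ T ≥ T₀, ∀ σ ∈ Icc (1 / 2 + ε) 1, M₁ T θ σ ≤ ((C * M₂ T σ : ℝ) : EReal)) :
    {ρ : ℂ | riemannZeta ρ = 0 ∧ 1 / 2 + ε < ρ.re}.Finite := by
  by_contra hinf
  have hre1 : ∀ ρ : ℂ, riemannZeta ρ = 0 → ρ.re < 1 := by
    intro ρ hρ
    by_contra hge
    push Not at hge
    exact riemannZeta_ne_zero_of_one_le_re hge hρ
  -- there are zeros of arbitrarily large positive height
  have hlarge : ∀ B : ℝ, ∃ ρ : ℂ, riemannZeta ρ = 0 ∧ 1 / 2 + ε < ρ.re ∧ B < ρ.im := by
    intro B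
    by_contra hcon
    push Not at hcon
    apply hinf
    have hK : IsCompact (Icc (0 : ℝ) 1 ×ℂ Icc (-B) B) := isCompact_Icc.reProdIm isCompact_Icc
    apply hK.inter_riemannZetaZeros_finite.subset
    rintro ρ ⟨hρ, hre⟩
    refine ⟨?_, hρ⟩
    rw [mem_reProdIm]
    refine ⟨⟨by linarith, (hre1 ρ hρ).le⟩, ?_, hcon ρ hρ hre⟩
    have hconj : riemannZeta ((starRingEnd ℂ) ρ) = 0 := by
      rw [riemannZeta_conj, hρ, map_zero]
    have := hcon ((starRingEnd ℂ) ρ) hconj (by simpa using hre)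
    simp at this
    linarith
  obtain ⟨ρ, hρ, hre, him⟩ := hlarge (max 0 (2 * T₀))
  have him0 : 0 < ρ.im := lt_of_le_of_lt (le_max_left _ _) him
  have himT : 2 * T₀ < ρ.im := lt_of_le_of_lt (le_max_right _ _) him
  have hρ1 : ρ ≠ 1 := by
    intro h1
    rw [h1] at him0
    simp at him0
  set T : ℝ := 2 / 3 * ρ.im with hTdef
  have hTpos : 0 < T := by positivity
  have hTT0 : T ≥ T₀ := by
    rw [hTdef]
    rcases le_or_gt T₀ 0 with h0 | h0
    · have : 0 ≤ 2 / 3 * ρ.im := by positivity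
      linarith
    · linarith
  have hb1 : T < ρ.im := by rw [hTdef]; linarith
  have hb2 : ρ.im < 2 * T := by rw [hTdef]; linarith
  set u : ℂ := exp (-(θ * I)) with hu
  have hune : u ≠ 0 := exp_ne_zero _
  obtain ⟨hnz, htop⟩ := blowup ρ hρ hρ1 u hune
  obtain ⟨B, hB⟩ := M₂_bdd T ρ.re hTpos
  -- the curve
  have hcurve : Tendsto (fun r : ℝ => ρ + r * u) (𝓝[>] 0) (𝓝 ρ) := by
    have hc : Continuous (fun r : ℝ => ρ + r * u) := by fun_prop
    have := hc.tendsto 0
    simp only [ofReal_zero, zero_mul, add_zero] at this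
    exact this.mono_left nhdsWithin_le_nhds
  have hcre : Tendsto (fun r : ℝ => (ρ + r * u).re) (𝓝[>] 0) (𝓝 ρ.re) :=
    (continuous_re.tendsto ρ).comp hcurve
  have hcim : Tendsto (fun r : ℝ => (ρ + r * u).im) (𝓝[>] 0) (𝓝 ρ.im) :=
    (continuous_im.tendsto ρ).comp hcurve
  have e1 := hcre.eventually hB
  have e2 := hcre.eventually (lt_mem_nhds hre)
  have e3 := hcre.eventually (gt_mem_nhds (hre1 ρ hρ))
  have e4 := hcim.eventually (lt_mem_nhds hb1)
  have e5 := hcim.eventually (gt_mem_nhds hb2)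
  have e7 := htop.eventually (eventually_gt_atTop (|C| * |B|))
  obtain ⟨r, hr⟩ := (e1.and (e2.and (e3.and (e4.and (e5.and (e7.and hnz)))))).exists
  obtain ⟨h1, h2, h3, h4, h5, h7, h8⟩ := hr
  set z := ρ + r * u with hz
  have hzeq : z = (z.re : ℂ) + z.im * I := (re_add_im z).symm
  have hM := h T hTT0 z.re ⟨h2.le, h3.le⟩
  have hle : (((u * (deriv riemannZeta z / riemannZeta z)).re : ℝ) : EReal) ≤ M₁ T θ z.re := by
    unfold M₁
    have hmem : z.im ∈ {t : ℝ | t ∈ Icc T (2 * T) ∧ riemannZeta ((z.re : ℂ) + t * I) ≠ 0} := by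
      refine ⟨⟨h4.le, h5.le⟩, ?_⟩
      rw [← hzeq]; exact h8
    have := le_iSup₂ (f := fun (t : ℝ) (_ : t ∈ {t : ℝ | t ∈ Icc T (2 * T) ∧
      riemannZeta ((z.re : ℂ) + t * I) ≠ 0}) =>
      (((exp (-(θ * I)) * (deriv riemannZeta ((z.re : ℂ) + t * I) /
        riemannZeta ((z.re : ℂ) + t * I))).re : ℝ) : EReal)) z.im hmem
    rw [← hzeq] at this
    exact this
  have hfin := hle.trans hM
  rw [EReal.coe_le_coe_iff] at hfin
  -- `M₂ ≥ 0`
  have hM2nn : 0 ≤ M₂ T z.re := by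
    unfold M₂
    apply div_nonneg
    · apply Real.sSup_nonneg
      rintro x ⟨t, _, rfl⟩
      exact norm_nonneg _
    · apply Real.sSup_nonneg
      rintro x ⟨t, _, rfl⟩
      exact norm_nonneg _
  have hCM : C * M₂ T z.re ≤ |C| * |B| := by
    calc C * M₂ T z.re ≤ |C| * M₂ T z.re := by gcongr; exact le_abs_self C
      _ ≤ |C| * |B| := by gcongr; exact h1.trans (le_abs_self B)
  linarith

end Pool.Agent.Results.MP_818aa8_nt.FinitelyManyZeros
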