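import Pool.Agent.Helper57.QZ.Asm3

/-!
# High levels of `|ζ'|`, `|ζ|` and `Re e^{-iθ} ζ'/ζ` on vertical lines

The maxima over `[T, 2T]` of the question are replaced by the levels that are reached on a subset
of `[T, 2T]` of measure at least `T / N`, for all `N₀ ≤ N ≤ exp (log T / (log log T) ^ 6)`.
-/

set_option autoImplicit false

namespace Pool.Agent.Results.MP_818aa8_nt.LevelAsymptotic

open MeasureTheory Set Complex

/-- The supremum of the real numbers `v` such that `f t ≥ v` on a subset of `[T, 2T]` of measure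
at least `T / N`. -/
noncomputable def level (N T : ℝ) (f : ℝ → ℝ) : ℝ :=
  sSup {v : ℝ | T / N ≤ volume.real {t : ℝ | t ∈ Icc T (2 * T) ∧ v ≤ f t}}

/-- Let `0 < ε < 1/2` and `δ > 0`. There are `N₀` and `T₀` such that for all `T ≥ T₀`, all `N` with
`N₀ ≤ N ≤ exp (log T / (log log T) ^ 6)`, all `σ ∈ [1/2 + ε, 1]` and all `θ` the `T/N`-level of
`Re (e^{-iθ} ζ'/ζ (σ + it))` is the quotient of the `T/N`-levels of `|ζ' (σ + it)|` and of
`|ζ (σ + it)|` up to a factor in `[1 - δ, 1 + δ]`. -/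
theorem result : ∀ ε ∈ Ioo (0:ℝ) (1 / 2), ∀ δ : ℝ, 0 < δ →
    ∃ N₀ T₀ : ℝ, 1 < N₀ ∧ 3 < T₀ ∧ ∀ T : ℝ, T₀ ≤ T → ∀ N : ℝ, N₀ ≤ N →
    N ≤ Real.exp (Real.log T / Real.log (Real.log T) ^ 6) →
    ∀ σ ∈ Icc (1 / 2 + ε) 1, ∀ θ : ℝ,
    (1 - δ) * (level N T (fun t => ‖deriv riemannZeta (σ + t * I)‖) /
        level N T (fun t => ‖riemannZeta (σ + t * I)‖)) ≤
      level N T (fun t => (exp (-(θ * I)) *
        (deriv riemannZeta (σ + t * I) / riemannZeta (σ + t * I))).re) ∧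
    level N T (fun t => (exp (-(θ * I)) *
        (deriv riemannZeta (σ + t * I) / riemannZeta (σ + t * I))).re) ≤
      (1 + δ) * (level N T (fun t => ‖deriv riemannZeta (σ + t * I)‖) /
        level N T (fun t => ‖riemannZeta (σ + t * I)‖)) :=
  fun ε hε δ hδ => Pool.Agent.Helper57.QZ.a_fin3 ε hε δ hδ

end Pool.Agent.Results.MP_818aa8_nt.LevelAsymptotic
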