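import Pool.Agent.Helper57.SL.Asm

/-!
# The suprema of `|ζ|`, `|ζ'|` and `Re e^{-iθ} ζ'/ζ` near `Re s = 1` over typical short intervals

The question has a positive answer when `[T, 2T]` is replaced by a typical interval `[u, u + H]`,
or by any union of such intervals, uniformly for `1 - κ / log log log H ≤ σ ≤ 1` and for
`H₀ ≤ H ≤ exp (log T / log log T)`.
-/

set_option autoImplicit false

namespace Pool.Agent.Results.MP_818aa8_nt.NearOneLine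

open MeasureTheory Set Complex

/-- The supremum of `Re (e^{-iθ} ζ'/ζ (σ + it))` over `t ∈ G`. -/
noncomputable def M₁ (G : Set ℝ) (σ θ : ℝ) : ℝ :=
  sSup ((fun t : ℝ => (exp (-(θ * I)) *
    (deriv riemannZeta (σ + t * I) / riemannZeta (σ + t * I))).re) '' G)

/-- The supremum of `|ζ' (σ + it)|` over `t ∈ G` divided by the supremum of `|ζ (σ + it)|` over
`t ∈ G`. -/
noncomputable def M₂ (G : Set ℝ) (σ : ℝ) : ℝ :=
  sSup ((fun t : ℝ => ‖deriv riemannZeta (σ + t * I)‖) '' G) /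
    sSup ((fun t : ℝ => ‖riemannZeta (σ + t * I)‖) '' G)

/-- The sum of `log p / p ^ σ` over the primes `p ≤ log H`. -/
noncomputable def S (σ H : ℝ) : ℝ :=
  ∑ p ∈ Nat.primesBelow (⌊Real.log H⌋₊ + 1), Real.log p * (p : ℝ) ^ (-σ)

/-- Let `0 < δ < 1` and `B ≥ 1`. There are `0 < κ < 1`, `H₀` and `T₀` such that for all `T ≥ T₀`,
all `H` with `H₀ ≤ H ≤ exp (log T / log log T)` and all `σ ∈ [1 - κ / log log log H, 1]` there is a
set `E ⊆ [T, 2T]` of measure at most `T H ^ (-B)` such that the following holds for every nonempty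
set `U` of numbers `u ∈ [T, 2T]` outside `E`. Let `G` be the union of the intervals `[u, u + H]`
over `u ∈ U`. Then `G ⊆ [T, 2T]` and for all `θ` the supremum of `Re (e^{-iθ} ζ'/ζ (σ + it))` over
`t ∈ G` is the quotient of the suprema of `|ζ' (σ + it)|` and `|ζ (σ + it)|` over `t ∈ G` up to a
factor in `[1 - δ, 1 + δ]`, and it is the sum of `log p / p ^ σ` over `p ≤ log H` up to a factor
in `[1 - δ, 1 + δ]`. Moreover `log log log H ≥ 1`. -/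
theorem result : ∀ δ ∈ Ioo (0:ℝ) 1, ∀ B : ℝ, 1 ≤ B → ∃ κ ∈ Ioo (0:ℝ) 1,
    ∃ H₀ T₀ : ℝ, 3 ≤ H₀ ∧ 4 ≤ T₀ ∧ ∀ T : ℝ, T₀ ≤ T → ∀ H : ℝ, H₀ ≤ H →
    H ≤ Real.exp (Real.log T / Real.log (Real.log T)) →
    1 ≤ Real.log (Real.log (Real.log H)) ∧
    ∀ σ ∈ Icc (1 - κ / Real.log (Real.log (Real.log H))) 1,
    ∃ E : Set ℝ, E ⊆ Icc T (2 * T) ∧ volume.real E ≤ T * H ^ (-B) ∧
    ∀ U : Set ℝ, U ⊆ Icc T (2 * T) \ E → U.Nonempty →
    ∀ G : Set ℝ, G = ⋃ u ∈ U, Icc u (u + H) → G ⊆ Icc T (2 * T) ∧ ∀ θ : ℝ,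
    (1 - δ) * M₂ G σ ≤ M₁ G σ θ ∧ M₁ G σ θ ≤ (1 + δ) * M₂ G σ ∧
    |M₁ G σ θ - S σ H| ≤ δ * S σ H :=
  fun δ hδ B hB => Pool.Agent.Helper57.SL.a_uns δ hδ B hB

end Pool.Agent.Results.MP_818aa8_nt.NearOneLine
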