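import Pool.Agent.Helper57.SJ.Asm

/-!
# The suprema of `|ζ|`, `|ζ'|` and `Re e^{-iθ} ζ'/ζ` on `Re s = 1` over typical short intervals

For all `H₀ ≤ H ≤ T ^ c` the question has a positive answer on the line `Re s = 1` when `[T, 2T]`
is replaced by the interval `[u, u + H]`, or by any union of such intervals, for all `u ∈ [T, 2T]`
outside a set of measure at most `T H ^ (-B)`.
-/

set_option autoImplicit false

namespace Pool.Agent.Results.MP_818aa8_nt.ShortIntervals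

open MeasureTheory Set Complex

/-- The supremum of `Re (e^{-iθ} ζ'/ζ (1 + it))` over `t ∈ G`. -/
noncomputable def M₁ (G : Set ℝ) (θ : ℝ) : ℝ :=
  sSup ((fun t : ℝ => (exp (-(θ * I)) *
    (deriv riemannZeta (1 + t * I) / riemannZeta (1 + t * I))).re) '' G)

/-- The supremum of `|ζ' (1 + it)|` over `t ∈ G` divided by the supremum of `|ζ (1 + it)|` over
`t ∈ G`. -/
noncomputable def M₂ (G : Set ℝ) : ℝ :=
  sSup ((fun t : ℝ => ‖deriv riemannZeta (1 + t * I)‖) '' G) /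
    sSup ((fun t : ℝ => ‖riemannZeta (1 + t * I)‖) '' G)

/-- Let `0 < δ < 1` and `B ≥ 1`. There are `0 < c < 1`, `H₀` and `T₀` such that for all `T ≥ T₀`
and all `H` with `H₀ ≤ H ≤ T ^ c` there is a set `E ⊆ [T, 2T]` of measure at most `T H ^ (-B)`
such that the following holds for every nonempty set `U` of numbers `u ∈ [T, 2T]` outside `E`. Let
`G` be the union of the intervals `[u, u + H]` over `u ∈ U`. Then `G ⊆ [T, 2T]` and for all `θ` the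
supremum of `Re (e^{-iθ} ζ'/ζ (1 + it))` over `t ∈ G` is the quotient of the suprema of
`|ζ' (1 + it)|` and `|ζ (1 + it)|` over `t ∈ G` up to a factor in `[1 - δ, 1 + δ]`, and it is
`log log H` up to a factor in `[1 - δ, 1 + δ]`. -/
theorem result : ∀ δ ∈ Ioo (0:ℝ) 1, ∀ B : ℝ, 1 ≤ B → ∃ c ∈ Ioo (0:ℝ) 1,
    ∃ H₀ T₀ : ℝ, 3 ≤ H₀ ∧ 4 ≤ T₀ ∧ ∀ T : ℝ, T₀ ≤ T → ∀ H : ℝ, H₀ ≤ H → H ≤ T ^ c →
    ∃ E : Set ℝ, E ⊆ Icc T (2 * T) ∧ volume.real E ≤ T * H ^ (-B) ∧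
    ∀ U : Set ℝ, U ⊆ Icc T (2 * T) \ E → U.Nonempty →
    ∀ G : Set ℝ, G = ⋃ u ∈ U, Icc u (u + H) → G ⊆ Icc T (2 * T) ∧ ∀ θ : ℝ,
    (1 - δ) * M₂ G ≤ M₁ G θ ∧ M₁ G θ ≤ (1 + δ) * M₂ G ∧
    |M₁ G θ - Real.log (Real.log H)| ≤ δ * Real.log (Real.log H) := by
  intro δ hδ B hB
  obtain ⟨c, hc, H₀, T₀, hH₀, hT₀, h1⟩ := Pool.Agent.Helper57.SJ.a_un δ hδ B hB
  refine ⟨c, hc, H₀, T₀, hH₀, hT₀, fun T hT H hH hHT => ?_⟩
  obtain ⟨E, hE1, hE2, h2⟩ := h1 T hT H hH hHT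
  refine ⟨E, hE1, hE2, fun U hU hUne G hG => ?_⟩
  obtain ⟨h3, h4⟩ := h2 U hU hUne G hG
  refine ⟨h3, fun θ => ?_⟩
  have h5 := h4 θ
  simp only [Pool.Agent.Helper57.QZ.pt, Complex.ofReal_one] at h5
  exact h5

end Pool.Agent.Results.MP_818aa8_nt.ShortIntervals
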